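import Pool.Agent.U151.IP.FinK
import Pool.Agent.U151.IP.Crit
import Pool.Agent.Results.MP_fe58d8_pr.UniformDimension

/-!
# The common points of independent percolation interfaces

The case `q = 1` of the FK interface: critical bond percolation on `δ ℤ²` in a rectangle `D = (-A, B) × (0, H)`, with the counterclockwise
boundary arc from `a = t + i H` to `b = 0` wired and the other one dual-wired. The exploration path
is parametrised by its number of steps: `Rect.curve` is the piecewise linear curve on `[0, 1]` run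
at constant speed, and `Rect.time` is the number of steps times `δ ^ (7/4)`; `Rect.law` is the law
of (curve, time). Weak limits exist along a subsequence of every sequence of meshes.

Let `μ` be a weak limit and let `p 0, …, p (k-1)` be independent with the law `μ`, `k ≥ 1`
(`Measure.pi`). `common p` is the set of the points which are on all `k` curves. Almost surely,
for all `r > 0`,

* `dim (common p ∩ D ∩ B(0, r)) = 2 - k/4` (differences in `[0, ∞]` are truncated at `0`); in
  particular `k ≤ 7` paths have common points in `D` in every neighbourhood of the end point `b`;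
* the set of the times at which any one of the curves is in `common p ∩ D ∩ B(0, r)` has dimension
  `(4/7) (2 - k/4)`;
* if `k ≥ 8` there are finitely many common points in every compact subset of `D`;
* if `k ≥ 9` there is no common point in `D`.

Definitions: `Pool.Agent.H984R4.NP.Model` (`Rect`, `pos`, `clamp`, `pl`, `X`, `Rect.D`, `Rect.dm`,
`Rect.curve`, `Rect.time`, `Rect.law`), `Pool.Agent.H984R4.NP.Defs` (`Dm`, `Dm.edges`, `Dm.wir`,
`Dm.cfg`, `Dm.walk`, `Dm.len`) and `Pool.Agent.H984R3.Per.Defs` (states, `ae`, `mv`, `rt`, `nxt`,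
`orb`).
-/

set_option autoImplicit false

namespace Pool.Agent.Results.MP_b3e76a_pr.IndependentPaths

open H984N MeasureTheory Filter Topology Pool.Agent.Results.MP_fe58d8_pr
open scoped ENNReal

/-- The points which are on all curves. -/
def common {k : ℕ} (p : Fin k → X) : Set ℂ := ⋂ i, Set.range (p i).1

/-- The times at which the curve of `q` is in `T`. -/
def times (q : X) (T : Set ℂ) : Set unitInterval := {s | q.1 s ∈ T}

theorem times_dim {q : X} (hq : ∀ E : Set unitInterval, dimH (q.1 '' E) = 7 / 4 * dimH E)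
    {T : Set ℂ} (hT : T ⊆ Set.range q.1) : dimH (times q T) = 4 / 7 * dimH T := by
  have e : q.1 '' (times q T) = T := by
    unfold times
    rw [show {s | q.1 s ∈ T} = q.1 ⁻¹' T from rfl, Set.image_preimage_eq_range_inter]
    exact Set.inter_eq_right.mpr hT
  have h := hq (times q T)
  rw [e] at h
  have e2 : (4 / 7 : ℝ≥0∞) * (7 / 4) = 1 := by
    have a1 : (4 / 7 : ℝ≥0∞) = ENNReal.ofReal (4 / 7) := by
      rw [ENNReal.ofReal_div_of_pos (by norm_num)]; norm_num
    have a2 : (7 / 4 : ℝ≥0∞) = ENNReal.ofReal (7 / 4) := by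
      rw [ENNReal.ofReal_div_of_pos (by norm_num)]; norm_num
    rw [a1, a2, ← ENNReal.ofReal_mul (by norm_num)]
    norm_num
  rw [h, ← mul_assoc, e2, one_mul]

theorem result (R : Rect) :
    (∀ δ : ℕ → ℝ, (∀ i, 0 < δ i) → Tendsto δ atTop (𝓝 0) →
      ∃ φ : ℕ → ℕ, StrictMono φ ∧ ∃ μ : ProbabilityMeasure X,
        Tendsto (fun i => R.law (δ (φ i))) atTop (𝓝 μ)) ∧
    (∀ δ : ℕ → ℝ, (∀ i, 0 < δ i) → Tendsto δ atTop (𝓝 0) → ∀ μ : ProbabilityMeasure X,
      Tendsto (fun i => R.law (δ i)) atTop (𝓝 μ) → ∀ k : ℕ, 1 ≤ k →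
      ∀ᵐ p ∂(Measure.pi fun _ : Fin k => (μ : Measure X)),
        (∀ r : ℝ, 0 < r →
          dimH (common p ∩ R.D ∩ Metric.ball 0 r) = 2 - (k : ℝ≥0∞) / 4 ∧
          ∀ j, dimH (times (p j) (common p ∩ R.D ∩ Metric.ball 0 r)) =
            4 / 7 * (2 - (k : ℝ≥0∞) / 4)) ∧
        (8 ≤ k → ∀ A : Set ℂ, IsCompact A → A ⊆ R.D → (common p ∩ A).Finite) ∧
        (9 ≤ k → common p ∩ R.D = ∅)) := by
  obtain ⟨h1, h2⟩ := UniformDimension.result R
  refine ⟨h1, fun δ hδ hlim μ hμ k hk => ?_⟩
  have hν := H443B.limit_trace R hδ hlim hμ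
  have hD := H443B.isOpen_D R
  have hmap : ∀ k : ℕ, Measure.pi (fun _ : Fin k =>
      ((μ.map H443B.rgX_cont.measurable.aemeasurable :
        ProbabilityMeasure (TopologicalSpace.NonemptyCompacts ℂ)) :
          Measure (TopologicalSpace.NonemptyCompacts ℂ))) =
      (Measure.pi (fun _ : Fin k => (μ : Measure X))).map (fun p i => H443B.rgX (p i)) := by
    intro k
    rw [Measure.pi_map_pi (μ := fun _ : Fin k => (μ : Measure X))
      (f := fun _ => H443B.rgX) (fun _ => H443B.rgX_cont.measurable.aemeasurable)]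
    rfl
  have hmm : ∀ k : ℕ, Measurable (fun (p : Fin k → X) (i : Fin k) => H443B.rgX (p i)) := fun k =>
    measurable_pi_lambda _ fun i => H443B.rgX_cont.measurable.comp (measurable_pi_apply i)
  have hunif : ∀ᵐ p ∂(Measure.pi fun _ : Fin k => (μ : Measure X)), ∀ j,
      ∀ E : Set unitInterval, dimH ((p j).1 '' E) = 7 / 4 * dimH E := by
    rw [ae_all_iff]
    intro j
    exact (Measure.tendsto_eval_ae_ae (μ := fun _ : Fin k => (μ : Measure X)) (i := j)).eventually
      (h2 δ hδ hlim μ hμ)
  have hcom : ∀ (k : ℕ) (p : Fin k → X),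
      Pool.Agent.U151.IP.com (fun i => H443B.rgX (p i)) = common p := fun k p => rfl
  have hsub : ∀ (p : Fin k → X) (j : Fin k) (T : Set ℂ), common p ∩ T ⊆ Set.range (p j).1 :=
    fun p j T z hz => Set.mem_iInter.mp hz.1 j
  have hk9 : 9 ≤ k → (2 : ℝ≥0∞) < (k : ℝ≥0∞) / 4 := by
    intro h
    rw [ENNReal.lt_div_iff_mul_lt (Or.inl (by norm_num)) (Or.inl (by norm_num))]
    have : (8 : ℝ≥0∞) < k := by exact_mod_cast (show 8 < k by omega)
    calc (2 : ℝ≥0∞) * 4 = 8 := by norm_num
      _ < k := this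
  have h3 := Pool.Agent.U151.IP.finK (k := k) (H443B.toE R) hδ hlim hν hD hk
    isClosed_univ (a := 2) (by norm_num)
    (by
      rw [show ENNReal.ofReal 2 = 2 by simp]
      exact Pool.Agent.U151.IP.dimH_C_le _) (Pool.Agent.U151.IP.fat_univ _)
  rw [hmap] at h3
  have h8 : 8 ≤ k → ∀ᵐ p ∂(Measure.pi fun _ : Fin k => (μ : Measure X)),
      (9 ≤ k → common p ∩ R.D = ∅) →
        ∀ A : Set ℂ, IsCompact A → A ⊆ R.D → (common p ∩ A).Finite := by
    intro hk8
    rcases Nat.lt_or_ge 8 k with h | h
    · refine Eventually.of_forall fun p hp A _ hAD => ?_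
      have h4 : common p ∩ A ⊆ common p ∩ R.D := Set.inter_subset_inter_right _ hAD
      rw [hp h] at h4
      exact Set.finite_empty.subset h4
    · obtain rfl : k = 8 := le_antisymm h hk8
      have h4 := Pool.Agent.U151.IP.fin8 (H443B.toE R) hδ hlim hν hD
      rw [hmap] at h4
      filter_upwards [ae_of_ae_map (hmm 8).aemeasurable h4] with p hp _
      exact hp
  have h8' : ∀ᵐ p ∂(Measure.pi fun _ : Fin k => (μ : Measure X)), 8 ≤ k →
      (9 ≤ k → common p ∩ R.D = ∅) →
        ∀ A : Set ℂ, IsCompact A → A ⊆ R.D → (common p ∩ A).Finite := by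
    by_cases h : 8 ≤ k
    · filter_upwards [h8 h] with p hp _
      exact hp
    · exact Eventually.of_forall fun p h' => absurd h' h
  filter_upwards [ae_of_ae_map (hmm k).aemeasurable h3, hunif, h8'] with p hp hu hp8
  simp only [hcom, Set.univ_inter, show ENNReal.ofReal 2 = (2 : ℝ≥0∞) by simp] at hp
  have h9 : 9 ≤ k → common p ∩ R.D = ∅ := fun h9 => (hp 1 one_pos).2 (hk9 h9)
  refine ⟨fun r hr => ?_, fun h => hp8 h h9, h9⟩
  have e : common p ∩ R.D ∩ Metric.ball 0 r = common p ∩ (R.D ∩ Metric.ball 0 r) :=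
    Set.inter_assoc _ _ _
  have h4 := (hp r hr).1
  refine ⟨by rw [e]; exact h4, fun j => ?_⟩
  rw [e, times_dim (hu j) (hsub p j _)]
  congr 1

end Pool.Agent.Results.MP_b3e76a_pr.IndependentPaths
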