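import Pool.Agent.U154.ER.Fin

/-!
Critical bond percolation on the square lattice (the FK model with `q = 1` at its self-dual point):
the almost sure extreme densities of the nested layers around the origin, over all the annuli of a
given ratio (Erdős-Rényi law).

`changes n ω` is the minimal number of colour changes of a path from the origin to the distance `n`,
i.e. the number of nested alternating (open / dual-open) layers around the origin. The typical
density is `ν_c = 1/(2 √3 π)`; the rate function is the Legendre transform of
`s ↦ 3/(4π²) (π²/9 - arccos² (e^s/2) + arcosh² (max (e^s/2) 1))`. For every `a > 0`, the set of the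
densities `(changes (b r) - changes r) / log b` of the annuli with inner radius `1 ≤ r ≤ exp (b^a)`
converges almost surely, as `b → ∞`, to the interval of the densities of rate at most `a`. For the
sums of independent variables this is the law of large numbers of Erdős and Rényi (1970).

Definitions: `sqLattice`, `bondLaw`, `hlf` (`= 1/2`), `openGraph` in `Pool.Agent.H974R2.Model`,
`Pool.Agent.H974R2.Infinite`; `Pt`, `Corner`, `Free`, `Change`, `ReachIn`, `norm2`, `changes` in
`Pool.Agent.H863R2.NL.Defs`.

The law on the cylinder is in `Pool.Agent.H863R2`, the exponential moments of the layers of one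
annulus use the separation theorems of `Pool.Agent.H450R4`, the link estimates and the tails of the
costs of rectangles are in `Pool.Agent.W819.EN` and the modules imported there, the change of measure
in `Pool.Agent.W405.EN.Dev` (starting repository). New here (`Pool.Agent.U154.TP`,
`Pool.Agent.U154.ER`, helper154): the moments of the increments by decoupling inequalities, the
deviations of the increments, the independent families of annuli with cheap links at both ends, and
the almost sure statements.
-/

set_option autoImplicit false

namespace Pool.Agent.Results.MP_b3e76a_pr.NestingErdosRenyi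

open MeasureTheory Filter Topology H974 Pool.Agent.H863R2.NL
open scoped Real

/-- the rate function -/
noncomputable def rate (ν : ℝ) : ℝ :=
  ⨆ s : ℝ, (s * ν - 3 / (4 * π ^ 2) * (π ^ 2 / 9 -
    Real.arccos (Real.exp s / 2) ^ 2 + Real.arcosh (max (Real.exp s / 2) 1) ^ 2))

/-- the typical density of layers -/
noncomputable def nc : ℝ := 1 / (2 * √3 * π)

/-- the densities of the annuli of ratio `b` with inner radius at most `exp (b ^ a)` -/
def dens (a : ℝ) (b : ℕ) (ω : sqLattice.edgeSet → Bool) : Set ℝ :=
  {x | ∃ r : ℕ, 1 ≤ r ∧ (r : ℝ) ≤ Real.exp ((b : ℝ) ^ a) ∧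
    x = ((changes (b * r) ω : ℝ) - changes r ω) / Real.log b}

theorem result (a : ℝ) (ha : 0 < a) : ∃ m M : ℝ, 0 ≤ m ∧ m < nc ∧ nc < M ∧
    {v : ℝ | 0 ≤ v ∧ rate v ≤ a} = Set.Icc m M ∧
    ∀ᵐ ω ∂(bondLaw hlf),
      Tendsto (fun b : ℕ => Metric.hausdorffDist (dens a b ω) (Set.Icc m M)) atTop (𝓝 0) := by
  obtain ⟨sp, m, hsp, -, hm0, hm, hJ, -⟩ := Pool.Agent.U154.ER.J_eq ha
  refine ⟨m, Pool.Agent.W819.EN.dL sp, hm0, hm, ?_, hJ, ?_⟩
  · have h := Pool.Agent.U154.UT.legA.mono hsp
    rw [Pool.Agent.U154.UT.legA.typ] at h
    exact h
  · have h := Pool.Agent.U154.ER.er_bond ha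
    rw [hJ] at h
    exact h

end Pool.Agent.Results.MP_b3e76a_pr.NestingErdosRenyi
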