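import Pool.Agent.U154.MD.Fin

/-!
Critical bond percolation on the square lattice (the FK model with `q = 1` at its self-dual point):
exact asymptotics of both tails of the number of nested layers around the origin, in the whole range
of moderate deviations (levels `ν log n` with `ν → ν_c`, from the scale of the central limit theorem
up to, but excluding, the scale of large deviations).

`changes n ω` is the minimal number of colour changes of a path from the origin to the distance `n`,
i.e. the number of nested alternating (open / dual-open) layers around the origin. The typical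
density is `ν_c = 1/(2 √3 π)`; the rate function is the Legendre transform of
`s ↦ 3/(4π²) (π²/9 - arccos² (e^s/2) + arcosh² (max (e^s/2) 1))`. Cramér's theorem for sums of
independent variables has the same form.

Definitions: `sqLattice`, `bondLaw`, `hlf` (`= 1/2`), `openGraph` in `Pool.Agent.H974R2.Model`,
`Pool.Agent.H974R2.Infinite`; `Pt`, `Corner`, `Free`, `Change`, `ReachIn`, `norm2`, `changes` in
`Pool.Agent.H863R2.NL.Defs`; `gaussianReal` is the Gaussian law of Mathlib.

The law on the cylinder is in `Pool.Agent.H863R2`, the link estimates and the tails of the costs of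
rectangles in `Pool.Agent.W819.EN` and the modules imported there (starting repository). New here
(`Pool.Agent.U154.UT`, `Pool.Agent.U154.BE`, `Pool.Agent.U154.MD`, helper154): the sums of the
tilted local probabilities on the cylinder against `exp (-η j)` uniformly in the tilt, the
comparison of the cylinder with the plane for both tails with a relative error `o(1)` (by decoupling
inequalities), and the Berry-Esseen theorem for bounded arguments.
-/

set_option autoImplicit false

namespace Pool.Agent.Results.MP_b3e76a_pr.NestingModerateDeviations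

open MeasureTheory ProbabilityTheory H974 Pool.Agent.H863R2.NL
open scoped Real

/-- the rate function -/
noncomputable def rate (ν : ℝ) : ℝ :=
  ⨆ s : ℝ, (s * ν - 3 / (4 * π ^ 2) * (π ^ 2 / 9 -
    Real.arccos (Real.exp s / 2) ^ 2 + Real.arcosh (max (Real.exp s / 2) 1) ^ 2))

/-- the typical density of layers -/
noncomputable def nc : ℝ := 1 / (2 * √3 * π)

/-- the variance -/
noncomputable def vc : ℝ := 2 / (3 * √3 * π) - 1 / (2 * π ^ 2)

/-- the main term -/
noncomputable def main (ν L : ℝ) : ℝ :=
  Real.exp ((ν - nc) ^ 2 * L / (2 * vc) - rate ν * L) *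
    (1 - (gaussianReal 0 1).real (Set.Iic (|ν - nc| * √(L / vc))))

theorem result (ε : ℝ) (hε : 0 < ε) : ∃ δ : ℝ, 0 < δ ∧ ∃ n₀ : ℕ, ∀ n : ℕ, n₀ ≤ n → ∀ ν : ℝ,
    (nc ≤ ν → ν ≤ nc + δ →
      |(bondLaw hlf).real {ω | ν * Real.log n ≤ changes n ω} - main ν (Real.log n)| ≤
        ε * main ν (Real.log n)) ∧
    (nc - δ ≤ ν → ν ≤ nc →
      |(bondLaw hlf).real {ω | changes n ω ≤ ν * Real.log n} - main ν (Real.log n)| ≤
        ε * main ν (Real.log n)) := by
  obtain ⟨δ, hδ, n₀, h⟩ := Pool.Agent.U154.MD.plane_md (ε := min ε 1) (by positivity)
    (min_le_right _ _)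
  refine ⟨δ, hδ, n₀, fun n hn ν => ⟨fun h1 h2 => ?_, fun h1 h2 => ?_⟩⟩
  · have k1 : |ν - cN| ≤ δ := by
      have e : nc = cN := rfl
      rw [e] at h1 h2
      rw [abs_le]
      constructor <;> linarith
    have k2 := ((h n hn ν k1).1 h1).trans (mul_le_mul_of_nonneg_right (min_le_left ε 1)
      (Pool.Agent.U154.MD.Tn_pos ν (Real.log n)).le)
    exact k2
  · have k1 : |ν - cN| ≤ δ := by
      have e : nc = cN := rfl
      rw [e] at h1 h2
      rw [abs_le]
      constructor <;> linarith
    have k2 := ((h n hn ν k1).2 h2).trans (mul_le_mul_of_nonneg_right (min_le_left ε 1)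
      (Pool.Agent.U154.MD.Tn_pos ν (Real.log n)).le)
    exact k2

end Pool.Agent.Results.MP_b3e76a_pr.NestingModerateDeviations
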