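import Pool.Agent.U151.SF.Two
import Pool.Agent.U151.SF.Wt

/-!
# The structure factor of the percolation interface

Critical bond percolation (`q = 1`) on `δ ℤ²` in a rectangle `D = (-A, B) × (0, H)`, with the counterclockwise boundary
arc from `a = t + i H` to `b = 0` wired and the other one dual-wired. The interface is parametrised by its number of
steps: `Rect.curve` is the piecewise linear curve on `[0, 1]` run at constant speed, and `Rect.time` is the number of
steps times `δ ^ (7/4)`; `Rect.law` is the law of (curve, time). Weak limits exist along a subsequence of every sequence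
of meshes. Let `p = (f, T)` be distributed as a weak limit, in any rectangle, and let `μ = μ_{s,t}` be the natural time
spent by the piece `f [s, t]`, a measure on the plane of mass `m = T (t - s)`; `S (ξ) = |∫ exp (i ξ · x) dμ (x)|²` is
its structure factor. Almost surely:

(1) for all large `a` and ALL pieces of natural time `m ≥ C a ^ (-7/4) (log a) ^ 2`, the integral of `S` over the disk
`|ξ| ≤ a`, and also over the annulus `a ≤ |ξ| ≤ C a`, is between `c a ^ (1/4) m` and `C a ^ (1/4) m`; so the mean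
value of `S` over the annulus is of the exact order `a ^ (-7/4) m` (`c`, `C` are universal constants).

(2) simultaneously for ALL pieces `s < t` and ALL nonincreasing weights `w ≥ 0`: the integral of `w (|ξ|) S (ξ)` over
`|ξ| ≥ 1` is finite iff `∫_1^∞ w (k) k ^ (-3/4) dk < ∞`. With `w (k) = k ^ (2 σ)`: the natural time of every piece is in
the Sobolev space `H ^ σ` iff `σ < - 1/8`.

Input: the correlation integrals of all pieces (`MP_b3e76a_pr.EnergyProfile`). New here: the Gaussian averages of the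
Fourier transform and their comparison with the correlation integrals on logarithmically many scales (`SF.Gauss`,
`SF.Corr`, `SF.Num`), the Tauberian step from Gaussian averages to disks and annuli (`SF.Four`, `SF.Two`) and the
integral test (`SF.Wt`).

Definitions: below; `Pool.Agent.H984R4.NP.Model` (`Rect`, `pos`, `clamp`, `pl`, `X`, `Rect.dm`, `Rect.curve`, `Rect.time`,
`Rect.law`), `Pool.Agent.H984R4.NP.Defs` (`Dm`, `Dm.edges`, `Dm.wir`, `Dm.cfg`, `Dm.walk`, `Dm.len`) and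
`Pool.Agent.H984R3.Per.Defs` (states, `ae`, `mv`, `rt`, `nxt`, `orb`).
-/

set_option autoImplicit false

namespace Pool.Agent.Results.MP_b3e76a_pr.StructureFactor

open H984N MeasureTheory Filter Topology

/-- The structure factor of the piece `f ([s, t])`, `p = (f, T)`: the squared modulus of the Fourier transform of the
natural time spent by the piece. -/
noncomputable def factor (p : X) (s t : unitInterval) (ξ : ℂ) : ℝ :=
  ‖(p.2 : ℂ) * ∫ u in Set.Icc s t, Complex.exp (((inner ℝ ξ (p.1 u) : ℝ) : ℂ) * Complex.I)‖ ^ 2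

theorem factor_eq (p : X) (s t : unitInterval) (ξ : ℂ) :
    factor p s t ξ = p.2 ^ 2 * ‖Pool.Agent.U151.SF.cf (Pool.Agent.U151.SF.la s t) p.1 ξ‖ ^ 2 := by
  unfold factor
  rw [norm_mul, mul_pow, Complex.norm_real, Real.norm_eq_abs, sq_abs]
  rfl

theorem disk_eq (p : X) (s t : unitInterval) (a : ℝ) :
    ∫ ξ in Metric.closedBall (0:ℂ) a, factor p s t ξ = Pool.Agent.U151.SF.fb p s t a := by
  simp_rw [factor_eq]
  rw [integral_const_mul]
  rfl

theorem factor_int (p : X) (s t : unitInterval) (a : ℝ) :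
    IntegrableOn (factor p s t) (Metric.closedBall (0:ℂ) a) := by
  have h := (Pool.Agent.U151.SF.int_ball (Pool.Agent.U151.SF.la s t)
    (g := (p.1 : unitInterval → ℂ)) p.1.continuous.measurable a).const_mul (p.2 ^ 2)
  refine Integrable.congr h (Filter.Eventually.of_forall fun ξ => ?_)
  exact (factor_eq p s t ξ).symm

theorem factor_nonneg (p : X) (s t : unitInterval) (ξ : ℂ) : 0 ≤ factor p s t ξ := by
  unfold factor
  positivity

/-- The shell between two disks. -/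
theorem shell (p : X) (s t : unitInterval) {a b : ℝ} (hab : a ≤ b) :
    Pool.Agent.U151.SF.fb p s t b - Pool.Agent.U151.SF.fb p s t a ≤
      ∫ ξ in {ξ : ℂ | a ≤ ‖ξ‖ ∧ ‖ξ‖ ≤ b}, factor p s t ξ ∧
    ∫ ξ in {ξ : ℂ | a ≤ ‖ξ‖ ∧ ‖ξ‖ ≤ b}, factor p s t ξ ≤ Pool.Agent.U151.SF.fb p s t b := by
  rw [← disk_eq, ← disk_eq]
  have hsub : {ξ : ℂ | a ≤ ‖ξ‖ ∧ ‖ξ‖ ≤ b} ⊆ Metric.closedBall (0:ℂ) b := by
    intro ξ hξ
    rw [mem_closedBall_zero_iff]
    exact hξ.2
  have hm : MeasurableSet {ξ : ℂ | a ≤ ‖ξ‖ ∧ ‖ξ‖ ≤ b} :=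
    (measurableSet_le measurable_const measurable_norm).inter
      (measurableSet_le measurable_norm measurable_const)
  constructor
  · have h1 := integral_add_compl (μ := volume.restrict (Metric.closedBall (0:ℂ) b)) (s := Metric.closedBall (0:ℂ) a)
      measurableSet_closedBall (factor_int p s t b)
    rw [Measure.restrict_restrict measurableSet_closedBall,
      Set.inter_eq_left.mpr (Metric.closedBall_subset_closedBall hab),
      Measure.restrict_restrict measurableSet_closedBall.compl] at h1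
    have h2 : ∫ ξ in (Metric.closedBall (0:ℂ) a)ᶜ ∩ Metric.closedBall (0:ℂ) b, factor p s t ξ ≤
        ∫ ξ in {ξ : ℂ | a ≤ ‖ξ‖ ∧ ‖ξ‖ ≤ b}, factor p s t ξ := by
      refine setIntegral_mono_set ((factor_int p s t b).mono_set hsub)
        (Filter.Eventually.of_forall fun ξ => factor_nonneg p s t ξ) (LE.le.eventuallyLE ?_)
      intro ξ hξ
      have h3 : ¬ ‖ξ‖ ≤ a := by simpa using hξ.1
      have h4 : ‖ξ‖ ≤ b := by simpa using hξ.2
      exact ⟨(not_le.mp h3).le, h4⟩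
    linarith
  · exact setIntegral_mono_set (factor_int p s t b)
      (Filter.Eventually.of_forall fun ξ => factor_nonneg p s t ξ) (LE.le.eventuallyLE hsub)

theorem result : ∃ c C : ℝ, 0 < c ∧ 1 < C ∧ ∀ R : Rect,
    (∀ δ : ℕ → ℝ, (∀ i, 0 < δ i) → Tendsto δ atTop (𝓝 0) →
      ∃ φ : ℕ → ℕ, StrictMono φ ∧ ∃ μ : ProbabilityMeasure X,
        Tendsto (fun i => R.law (δ (φ i))) atTop (𝓝 μ)) ∧
    ∀ δ : ℕ → ℝ, (∀ i, 0 < δ i) → Tendsto δ atTop (𝓝 0) → ∀ μ : ProbabilityMeasure X,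
      Tendsto (fun i => R.law (δ i)) atTop (𝓝 μ) →
      ∀ᵐ p ∂(μ : Measure X), 0 < p.2 ∧
        (∀ᶠ a : ℝ in atTop, ∀ s t : unitInterval, s ≤ t →
          C * (a ^ (-(7/4) : ℝ) * Real.log a ^ 2) ≤ p.2 * ((t:ℝ) - s) →
            (c * a ^ (1/4 : ℝ) * (p.2 * ((t:ℝ) - s)) ≤
                ∫ ξ in Metric.closedBall (0:ℂ) a, factor p s t ξ ∧
              ∫ ξ in Metric.closedBall (0:ℂ) a, factor p s t ξ ≤
                C * a ^ (1/4 : ℝ) * (p.2 * ((t:ℝ) - s))) ∧
            (c * a ^ (1/4 : ℝ) * (p.2 * ((t:ℝ) - s)) ≤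
                ∫ ξ in {ξ : ℂ | a ≤ ‖ξ‖ ∧ ‖ξ‖ ≤ C * a}, factor p s t ξ ∧
              ∫ ξ in {ξ : ℂ | a ≤ ‖ξ‖ ∧ ‖ξ‖ ≤ C * a}, factor p s t ξ ≤
                C * a ^ (1/4 : ℝ) * (p.2 * ((t:ℝ) - s)))) ∧
        ∀ s t : unitInterval, s < t → ∀ w : ℝ → ENNReal, Antitone w → w 1 ≠ ⊤ →
          (∫⁻ ξ in {ξ : ℂ | 1 ≤ ‖ξ‖}, w ‖ξ‖ * ENNReal.ofReal (factor p s t ξ) ≠ ⊤ ↔
            ∫⁻ k in Set.Ici (1:ℝ), w k * ENNReal.ofReal (k ^ (-(3/4) : ℝ)) ≠ ⊤) := by
  obtain ⟨c0, D, hc0, hD, hE⟩ := Pool.Agent.Results.MP_b3e76a_pr.EnergyProfile.result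
  obtain ⟨c1, C1, hc1, hC1, hdet⟩ := Pool.Agent.U151.SF.main_det hc0 hD
  -- the ratio of the annuli
  obtain ⟨C, hC4, hCC1, hCl, hCu⟩ : ∃ C : ℝ, 4 ≤ C ∧ C1 ≤ C ∧ C1 + c1 ≤ c1 * C ^ (1/4 : ℝ) ∧
      C1 ≤ C ^ (3/4 : ℝ) := by
    have h1 : Tendsto (fun C : ℝ => c1 * C ^ (1/4 : ℝ)) atTop atTop :=
      (tendsto_rpow_atTop (by norm_num)).const_mul_atTop hc1
    have h2 : Tendsto (fun C : ℝ => C ^ (3/4 : ℝ)) atTop atTop := tendsto_rpow_atTop (by norm_num)
    obtain ⟨C, h3, h4, h5, h6⟩ := ((eventually_ge_atTop (4:ℝ)).and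
      ((eventually_ge_atTop C1).and ((h1.eventually_ge_atTop (C1 + c1)).and
        (h2.eventually_ge_atTop C1)))).exists
    exact ⟨C, h3, h4, h5, h6⟩
  have hC0 : 0 < C := by linarith
  have hCr : 0 < C ^ (1/4 : ℝ) := Real.rpow_pos_of_pos hC0 _
  have hCuu : C1 * C ^ (1/4 : ℝ) ≤ C := by
    calc C1 * C ^ (1/4 : ℝ) ≤ C ^ (3/4 : ℝ) * C ^ (1/4 : ℝ) :=
          mul_le_mul_of_nonneg_right hCu hCr.le
      _ = C := by
          rw [← Real.rpow_add hC0]
          norm_num
  have hC74 : C ^ (-(7/4) : ℝ) * 4 ≤ 1 := by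
    have h1 : (4:ℝ) ≤ C ^ (7/4 : ℝ) := by
      calc (4:ℝ) ≤ C := hC4
        _ = C ^ (1:ℝ) := (Real.rpow_one C).symm
        _ ≤ C ^ (7/4 : ℝ) := Real.rpow_le_rpow_of_exponent_le (by linarith) (by norm_num)
    rw [Real.rpow_neg hC0.le, inv_mul_le_iff₀ (by positivity)]
    linarith
  refine ⟨c1, C, hc1, by linarith, fun R => ?_⟩
  obtain ⟨hsub, hlim0⟩ := hE R
  refine ⟨hsub, fun δ hδ hlim μ hμ => ?_⟩
  filter_upwards [hlim0 δ hδ hlim μ hμ] with p hp
  obtain ⟨hp0, hev, -⟩ := hp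
  have hmain := hdet p hp0 (Pool.Agent.U151.SF.exists_coOk hD hp0 hev)
  have htC : Tendsto (fun a : ℝ => C * a) atTop atTop := tendsto_id.const_mul_atTop hC0
  refine ⟨hp0, ?_, ?_⟩
  · filter_upwards [hmain, htC.eventually hmain, eventually_ge_atTop C, eventually_ge_atTop (1:ℝ)]
      with a g1 g2 haC ha1 s t hst hm
    have hst' : (s:ℝ) ≤ t := hst
    have ha0 : 0 < a := by linarith
    have hn : 0 ≤ a ^ (-(7/4) : ℝ) * Real.log a ^ 2 := by positivity
    have hm1 : C1 * (a ^ (-(7/4) : ℝ) * Real.log a ^ 2) ≤ p.2 * ((t:ℝ) - s) :=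
      (mul_le_mul_of_nonneg_right hCC1 hn).trans hm
    have hlog : Real.log (C * a) ≤ 2 * Real.log a := by
      rw [Real.log_mul hC0.ne' ha0.ne']
      have := Real.log_le_log hC0 haC
      linarith
    have hlog0 : 0 ≤ Real.log (C * a) := Real.log_nonneg (by nlinarith)
    have hm2 : C1 * ((C * a) ^ (-(7/4) : ℝ) * Real.log (C * a) ^ 2) ≤ p.2 * ((t:ℝ) - s) := by
      refine le_trans ?_ hm1
      apply mul_le_mul_of_nonneg_left _ hC1.le
      rw [Real.mul_rpow hC0.le ha0.le]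
      have h5 : Real.log (C * a) ^ 2 ≤ 4 * Real.log a ^ 2 := by
        calc Real.log (C * a) ^ 2 ≤ (2 * Real.log a) ^ 2 := pow_le_pow_left₀ hlog0 hlog 2
          _ = 4 * Real.log a ^ 2 := by ring
      calc C ^ (-(7/4) : ℝ) * a ^ (-(7/4) : ℝ) * Real.log (C * a) ^ 2
          ≤ C ^ (-(7/4) : ℝ) * a ^ (-(7/4) : ℝ) * (4 * Real.log a ^ 2) :=
            mul_le_mul_of_nonneg_left h5 (by positivity)
        _ = (C ^ (-(7/4) : ℝ) * 4) * (a ^ (-(7/4) : ℝ) * Real.log a ^ 2) := by ring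
        _ ≤ 1 * (a ^ (-(7/4) : ℝ) * Real.log a ^ 2) := mul_le_mul_of_nonneg_right hC74 hn
        _ = _ := one_mul _
    obtain ⟨u1, u2⟩ := g1 s t hst hm1
    obtain ⟨v1, v2⟩ := g2 s t hst hm2
    obtain ⟨w1, w2⟩ := shell p s t (show a ≤ C * a by nlinarith)
    have hroot : (C * a) ^ (1/4 : ℝ) = C ^ (1/4 : ℝ) * a ^ (1/4 : ℝ) :=
      Real.mul_rpow hC0.le ha0.le
    have hX : 0 ≤ a ^ (1/4 : ℝ) * (p.2 * ((t:ℝ) - s)) :=
      mul_nonneg (by positivity) (mul_nonneg hp0.le (by linarith))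
    rw [hroot] at v1 v2
    refine ⟨⟨?_, ?_⟩, ?_, ?_⟩
    · rw [disk_eq]
      exact u1
    · rw [disk_eq]
      refine u2.trans ?_
      rw [mul_assoc, mul_assoc]
      exact mul_le_mul_of_nonneg_right hCC1 hX
    · refine le_trans ?_ w1
      nlinarith [mul_le_mul_of_nonneg_right hCl hX]
    · refine w2.trans (v2.trans ?_)
      nlinarith [mul_le_mul_of_nonneg_right hCuu hX]
  · intro s t hst w hw hw1
    have hst' : (s:ℝ) < t := hst
    have hm0 : 0 < p.2 * ((t:ℝ) - s) := mul_pos hp0 (by linarith)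
    have hz : Tendsto (fun a : ℝ => C1 * (a ^ (-(7/4) : ℝ) * Real.log a ^ 2)) atTop (𝓝 0) := by
      have h1 := (isLittleO_log_rpow_atTop (r := 7/8) (by norm_num)).tendsto_div_nhds_zero
      have h2 := (h1.pow 2).const_mul C1
      rw [zero_pow two_ne_zero, mul_zero] at h2
      refine h2.congr' ?_
      filter_upwards [eventually_gt_atTop (0:ℝ)] with a ha
      have e : (a ^ (7/8 : ℝ)) ^ 2 = a ^ (7/4 : ℝ) := by
        rw [← Real.rpow_natCast, ← Real.rpow_mul ha.le]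
        norm_num
      rw [div_pow, e, Real.rpow_neg ha.le, div_eq_mul_inv]
      ring
    have hall : ∀ᶠ a : ℝ in atTop, Pool.Agent.U151.SF.FbOk c1 C1 p s t a := by
      filter_upwards [hmain, hz.eventually (ge_mem_nhds hm0)] with a g1 g2
      exact g1 s t hst.le g2
    obtain ⟨a0, ha0⟩ := (hall.and (eventually_ge_atTop (1:ℝ))).exists_forall_of_atTop
    have ha01 : 1 ≤ a0 := (ha0 a0 le_rfl).2
    have hmeas : Measurable fun ξ : ℂ => ENNReal.ofReal (factor p s t ξ) := by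
      have e : (fun ξ : ℂ => ENNReal.ofReal (factor p s t ξ)) = fun ξ : ℂ => ENNReal.ofReal
          (p.2 ^ 2 * ‖Pool.Agent.U151.SF.cf (Pool.Agent.U151.SF.la s t) p.1 ξ‖ ^ 2) := by
        funext ξ
        rw [factor_eq]
      rw [e]
      exact ((Pool.Agent.U151.SF.cf_sq_meas (Pool.Agent.U151.SF.la s t)
        (g := (p.1 : unitInterval → ℂ)) p.1.continuous.measurable).const_mul
          (p.2 ^ 2)).ennreal_ofReal
    have hν : ∀ a : ℝ, (volume.withDensity fun ξ : ℂ => ENNReal.ofReal (factor p s t ξ))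
        (Metric.closedBall 0 a) = ENNReal.ofReal (Pool.Agent.U151.SF.fb p s t a) := by
      intro a
      rw [withDensity_apply _ measurableSet_closedBall, ← disk_eq,
        ofReal_integral_eq_lintegral_ofReal (factor_int p s t a)
          (Filter.Eventually.of_forall fun ξ => factor_nonneg p s t ξ)]
    have ht := Pool.Agent.U151.SF.test (ν := volume.withDensity fun ξ : ℂ =>
      ENNReal.ofReal (factor p s t ξ)) (α := c1 * (p.2 * ((t:ℝ) - s)))
      (β := C1 * (p.2 * ((t:ℝ) - s))) (a0 := a0) (by positivity) ha01 (fun a ha => by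
        rw [hν]
        obtain ⟨h1, h2⟩ := (ha0 a ha).1
        refine ⟨ENNReal.ofReal_le_ofReal (le_of_eq_of_le ?_ h1),
          ENNReal.ofReal_le_ofReal (h2.trans_eq ?_)⟩ <;> ring) hw hw1
    have hwm : Measurable fun ξ : ℂ => w ‖ξ‖ := hw.measurable.comp measurable_norm
    have hS : MeasurableSet {ξ : ℂ | 1 ≤ ‖ξ‖} := measurableSet_le measurable_const measurable_norm
    have he := setLIntegral_withDensity_eq_setLIntegral_mul (volume : Measure ℂ) hmeas hwm hS
    rw [← ht, he]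
    have he2 : ∀ ξ : ℂ, w ‖ξ‖ * ENNReal.ofReal (factor p s t ξ) =
        ((fun ξ : ℂ => ENNReal.ofReal (factor p s t ξ)) * fun ξ : ℂ => w ‖ξ‖) ξ := by
      intro ξ
      rw [Pi.mul_apply, mul_comm]
    simp_rw [he2]

end Pool.Agent.Results.MP_b3e76a_pr.StructureFactor
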